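import Pool.Agent.N71.SP.Stm

/-!
# SP/FIN2: very few radicands are bad for the small primes of a sparse set (helper556)

Adaptation of `Pool/Agent/R345/IYFin.lean`.
-/

set_option autoImplicit false

namespace Pool.Agent.N556.SP

open Finset Filter NumberField Pool.Agent.H38R2.CG Pool.Agent.H38R2.CG2 Pool.Agent.N71.SP
open Pool.Agent.R345.IX (Dof)
open scoped Classical

theorem reach_monoS {P : Set ℕ} {K : Type} [Field K] [NumberField K] {B B' n n' : ℝ} (hB : B ≤ B')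
    (hn : n ≤ n') : Pool.Agent.N71.SP.Reach P K B n ⊆ Pool.Agent.N71.SP.Reach P K B' n' := by
  rintro C ⟨L, h1, h2, h3⟩
  exact ⟨L, fun Q hQ => ⟨(h1 Q hQ).1, (h1 Q hQ).2.1, (h1 Q hQ).2.2.1, (h1 Q hQ).2.2.2.trans hB⟩,
    h2.trans hn, h3⟩

theorem QQ_sub (P : Set ℕ) (y : ℕ) : QQ P y ⊆ PP y := by
  intro p hp
  unfold QQ at hp
  unfold PP
  rw [Finset.mem_filter] at hp ⊢
  exact ⟨hp.1, hp.2.1⟩

theorem kS_third (a : ℝ) (X : ℕ) : 3 * kS a (1 / 2) X ≤ kS a (3 / 2) X := by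
  unfold kS
  apply Nat.le_floor
  have h0 : 0 ≤ 1 / 2 * Real.log X / Real.log (2 * yS a X) := by
    apply div_nonneg
    · have := Real.log_natCast_nonneg X
      positivity
    · have : (2 * (yS a X : ℝ)) = ((2 * yS a X : ℕ) : ℝ) := by push_cast; ring
      rw [this]
      exact Real.log_natCast_nonneg _
  have h1 := Nat.floor_le h0
  push_cast
  calc 3 * ((⌊1 / 2 * Real.log X / Real.log (2 * yS a X)⌋₊ : ℕ) : ℝ)
      ≤ 3 * (1 / 2 * Real.log X / Real.log (2 * yS a X)) := by gcongr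
    _ = 3 / 2 * Real.log X / Real.log (2 * yS a X) := by ring

/-- the exceptional discriminants -/
def BadT (P : Set ℕ) (a e : ℝ) (X D : ℕ) : Prop := ∃ (K : Type) (_ : Field K) (_ : NumberField K),
  Module.finrank ℚ K = 2 ∧ NumberField.discr K = (D : ℤ) ∧
    ¬ ((Nat.card (ClassGroup (𝓞 K)) : ℝ) ≤
      (X : ℝ) ^ e * ((Pool.Agent.N71.SP.Reach P K (2 * yS a X : ℕ) (kT a X)).ncard : ℝ))

/-- the deterministic part -/
theorem not_bad3 (hNUM : E_NUM) (hN3 : P_N3) (P0 : Set ℕ) (σ : ℝ) (a η C : ℝ) (ha : 1 < a)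
    (hC : 0 < C)
    (hLone : ∀ D : ℕ, IsFund D → Lone D ≤ C * (1 + Real.log D))
    (X D : ℕ) (hD : IsFund D) (hXD : X < D)
    (hDX : D ≤ 2 * X) (hX : 1 ≤ X) (hy : 2 ≤ yS a X)
    (hB : (12800 : ℝ) ^ (kT a X) ≤ (X : ℝ) ^ η)
    (h20 : 80 * kT a X ≤ (QQ P0 (yS a X)).card)
    (hsz : 4 * ((2 * yS a X) ^ (kT a X) * (2 * yS a X) ^ (kT a X)) < X)
    (hM : (X : ℝ) ^ ((σ - 1 / a) / 2 - η) ≤ ((QQ P0 (yS a X)).card.choose (kT a X) : ℝ))
    (hL2 : C * (2 + Real.log X) ≤ (X : ℝ) ^ η) (h4' : 4 ≤ (X : ℝ) ^ η)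
    (hlow : ((QQ P0 (yS a X)).card : ℝ) / 20 ≤
      ∑ p ∈ QQ P0 (yS a X), (1 + ((jacobiSym (D : ℤ) p : ℤ) : ℝ))) :
    ¬ BadT P0 a ((1 - σ) / 2 + 1 / (2 * a) + 4 * η) X D := by
  rintro ⟨K, i1, i2, h2, hK, hne⟩
  apply hne
  have hXr : (1 : ℝ) ≤ X := by exact_mod_cast hX
  have hX0 : (0 : ℝ) < X := by linarith
  have hsX : 0 < √(X : ℝ) := Real.sqrt_pos.2 hX0
  have hlogX : 0 ≤ Real.log X := Real.log_natCast_nonneg X
  set P := QQ P0 (yS a X) with hP
  set k := kT a X with hk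
  set M : ℝ := (P.card.choose k : ℝ) with hMdef
  have hPm : ∀ p ∈ P, p.Prime ∧ p ≠ 2 ∧ p ∈ P0 ∧ (p : ℝ) ≤ ((2 * yS a X : ℕ) : ℝ) := by
    intro p hp
    rw [hP] at hp
    unfold QQ at hp
    rw [Finset.mem_filter, Finset.mem_Ioc] at hp
    refine ⟨hp.2.1, by omega, hp.2.2, ?_⟩
    exact_mod_cast hp.1.2
  have hR := hNUM P0 K D hD h2 hK P ((2 * yS a X : ℕ) : ℝ) hPm k
  have hMD := Pool.Agent.R345.IY.MD_low2 D P (fun p hp => ⟨(hPm p hp).1, (hPm p hp).2.1⟩) k h20 hlow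
  have hSD := Pool.Agent.R345.IY.SD_diag X D k hX hXD (P.powersetCard k) ((2 * yS a X) ^ k) hsz (by
    intro s hs
    obtain ⟨hs1, hs2⟩ := Finset.mem_powersetCard.1 hs
    refine ⟨fun p hp => (hPm p (hs1 hp)).1, hs2, ?_⟩
    unfold prodS
    rw [← hs2]
    exact Finset.prod_le_pow_card _ _ _ fun p hp => by
      have := (hPm p (hs1 hp)).2.2.2
      exact_mod_cast this)
  rw [Finset.card_powersetCard] at hSD
  set R : ℝ := ((Pool.Agent.N71.SP.Reach P0 K ((2 * yS a X : ℕ) : ℝ) k).ncard : ℝ) with hRdef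
  set h : ℝ := (Nat.card (ClassGroup (𝓞 K)) : ℝ) with hh
  set md := MD D (P.powersetCard k) (fun _ => 1) with hmd
  set sd := SD D (P.powersetCard k) (fun _ => 1) with hsd
  have hR0 : 0 ≤ R := Nat.cast_nonneg _
  have hh0 : 0 ≤ h := Nat.cast_nonneg _
  have hM0 : 0 < M := lt_of_lt_of_le (Real.rpow_pos_of_pos hX0 _) hM
  have hsd0 : 0 ≤ sd := Pool.Agent.R345.IX.SD_nonneg D _
  have hD1 : 1 < D := hD.1
  have hDr : (1 : ℝ) < D := by exact_mod_cast hD1
  have hDX' : (D : ℝ) ≤ 2 * X := by exact_mod_cast hDX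
  have hlogD : Real.log D ≤ 1 + Real.log X := by
    have h1 : Real.log D ≤ Real.log (2 * X) := Real.log_le_log (by linarith) hDX'
    rw [Real.log_mul (by norm_num) hX0.ne'] at h1
    have := Real.log_two_lt_d9
    linarith
  have hL0 : 0 ≤ Lone D := (hN3 K D hD h2 hK).1
  have hL : Lone D ≤ (X : ℝ) ^ η := by
    refine (hLone D hD).trans (le_trans ?_ hL2)
    apply mul_le_mul_of_nonneg_left _ hC.le
    linarith
  have hsD : √(D : ℝ) ≤ 2 * √(X : ℝ) := by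
    rw [Real.sqrt_le_left (by positivity), mul_pow, Real.sq_sqrt hX0.le]
    linarith
  have hXη : 0 < (X : ℝ) ^ η := Real.rpow_pos_of_pos hX0 _
  -- the inequality for h
  have h1 : h * M ^ 2 ≤ 6400 ^ k * (R * (2 * (2 * √(X : ℝ)) * (X : ℝ) ^ η * (2 ^ k * M))) := by
    have e6400 : (6400 : ℝ) ^ k = (80 ^ k) ^ 2 := by
      rw [← pow_mul, mul_comm, pow_mul]; norm_num
    calc h * M ^ 2 ≤ h * (80 ^ k * md) ^ 2 := by gcongr
      _ = 6400 ^ k * (h * md ^ 2) := by rw [e6400]; ring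
      _ ≤ 6400 ^ k * (R * (2 * √(D : ℝ) * Lone D * sd)) := by gcongr
      _ ≤ _ := by gcongr
  have e128 : (6400 : ℝ) ^ k * 2 ^ k = 12800 ^ k := by rw [← mul_pow]; norm_num
  have h3 : h * M ≤ 12800 ^ k * R * 4 * (X : ℝ) ^ η * √(X : ℝ) := by
    refine le_of_mul_le_mul_right ?_ hM0
    calc h * M * M = h * M ^ 2 := by ring
      _ ≤ _ := h1
      _ = (6400 ^ k * 2 ^ k) * R * 4 * (X : ℝ) ^ η * √(X : ℝ) * M := by ring
      _ = _ := by rw [e128]
  have h5 : h * (X : ℝ) ^ ((σ - 1 / a) / 2 - η) ≤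
      (X : ℝ) ^ η * R * (X : ℝ) ^ η * (X : ℝ) ^ η * (X : ℝ) ^ (1 / 2 : ℝ) := by
    calc h * (X : ℝ) ^ ((σ - 1 / a) / 2 - η) ≤ h * M := by gcongr
      _ ≤ _ := h3
      _ ≤ (X : ℝ) ^ η * R * (X : ℝ) ^ η * (X : ℝ) ^ η * √(X : ℝ) := by gcongr
      _ = _ := by rw [Real.sqrt_eq_rpow]
  have hpos : 0 < (X : ℝ) ^ ((σ - 1 / a) / 2 - η) := Real.rpow_pos_of_pos hX0 _
  refine le_of_mul_le_mul_right (h5.trans (le_of_eq ?_)) hpos
  have e1 : (X : ℝ) ^ ((1 - σ) / 2 + 1 / (2 * a) + 4 * η) * R * (X : ℝ) ^ ((σ - 1 / a) / 2 - η) =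
      ((X : ℝ) ^ ((1 - σ) / 2 + 1 / (2 * a) + 4 * η) * (X : ℝ) ^ ((σ - 1 / a) / 2 - η)) * R := by
    ring
  have e2 : (X : ℝ) ^ η * R * (X : ℝ) ^ η * (X : ℝ) ^ η * (X : ℝ) ^ (1 / 2 : ℝ) =
      ((X : ℝ) ^ η * (X : ℝ) ^ η * (X : ℝ) ^ η * (X : ℝ) ^ (1 / 2 : ℝ)) * R := by ring
  rw [e1, e2, ← Real.rpow_add hX0, ← Real.rpow_add hX0, ← Real.rpow_add hX0, ← Real.rpow_add hX0]
  congr 2
  field_simp
  ring

/-- few exceptional discriminants in a dyadic interval -/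
theorem count_bad3 (hNUM : E_NUM) (hLOW : E_LOW) (hPAR : E_PAR) (hPAR2 : E_PAR2)
    (hN3 : P_N3) (hN3a : P_N3a) (P : Set ℕ) (σ : ℝ) (hσ0 : 0 < σ) (hσ1 : σ ≤ 1)
    (hP : Many P σ) (a : ℝ) (ha : 1 < a * σ) (ε : ℝ)
    (hε : 0 < ε) : ∃ X0 : ℕ, ∀ X ≥ X0,
    (((Finset.Ioc X (2 * X)).filter (fun D => IsFund D ∧
      BadT P a ((1 - σ) / 2 + 1 / (2 * a) + ε) X D)).card : ℝ) ≤
        (X : ℝ) ^ (2 * (1 - σ) + 2 / a + ε) := by
  obtain ⟨C, hC, hLone⟩ := Pool.Agent.R345.IX.Lone_le hN3a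
  obtain ⟨C5, hC5, y0, hy0⟩ := hLOW
  have ha1 : 1 < a := by
    by_contra hcon
    rw [not_lt] at hcon
    nlinarith
  have ha0 : 0 < a := by linarith
  set η : ℝ := ε / 4 with hη
  have hηpos : 0 < η := by positivity
  rw [← Filter.eventually_atTop]
  have hpar := hPAR P σ hσ0 hσ1 hP a (1 / 2) ha (by norm_num) (by norm_num) η 12800 hηpos
    (by norm_num)
  have hpk := hPAR2 P σ hσ0 hσ1 hP a ha η 1 hηpos one_pos
  have hpi := hPAR2 P σ hσ0 hσ1 hP a ha ε C5 hε hC5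
  have hlog1 := ERRh.ev_log (η / 2) (by positivity)
  have hc1 := ERRh.ev_const (η / 2) (by positivity) (max (2 * C) 4)
  have hLt : Tendsto (fun X : ℕ => Real.log (X : ℝ)) atTop atTop :=
    Real.tendsto_log_atTop.comp tendsto_natCast_atTop_atTop
  filter_upwards [hpar, hpk, hpi, hlog1, hc1, hLt.eventually_ge_atTop (4 * (y0 : ℝ) + 4),
    eventually_ge_atTop 1] with X hX hXk hXi hl1 hk1 hLy hX1
  obtain ⟨q1, q2, q3, q4, q5, q6, q7, q8, q9, -⟩ := hX
  obtain ⟨-, -, -, r1, r2, r4⟩ := hXk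
  obtain ⟨s1, s2, s3, -⟩ := hXi
  have hXr : (1 : ℝ) ≤ X := by exact_mod_cast hX1
  have hX0 : (0 : ℝ) < X := by linarith
  have hlogX : 0 ≤ Real.log X := Real.log_natCast_nonneg X
  have hXh : 0 < (X : ℝ) ^ (η / 2) := Real.rpow_pos_of_pos hX0 _
  have hyy0 : y0 ≤ yS a X := by
    have hLa : Real.log X ≤ (Real.log X) ^ a := by
      have := Real.rpow_le_rpow_of_exponent_le (by
        have : (0 : ℝ) ≤ y0 := Nat.cast_nonneg _
        linarith : 1 ≤ Real.log X) ha1.le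
      rwa [Real.rpow_one] at this
    unfold yS
    apply Nat.le_floor
    linarith
  have hne : (QQ P (yS a X)).Nonempty := by
    rw [← Finset.card_pos]
    omega
  have hlow := hy0 (yS a X) hyy0 (QQ P (yS a X)) (QQ_sub P _) hne (iT a X) s1 X s2
  have hsub : ((Finset.Ioc X (2 * X)).filter (fun D => IsFund D ∧
      BadT P a ((1 - σ) / 2 + 1 / (2 * a) + ε) X D)) ⊆
      ((Finset.Ioc X (2 * X)).filter (fun D => IsFund D ∧
      ∑ p ∈ QQ P (yS a X), (1 + ((jacobiSym (D : ℤ) p : ℤ) : ℝ)) <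
        ((QQ P (yS a X)).card : ℝ) / 20)) := by
    intro D hD
    obtain ⟨hD1, hD2, hD3⟩ := Finset.mem_filter.1 hD
    obtain ⟨hDa, hDb⟩ := Finset.mem_Ioc.1 hD1
    rw [Finset.mem_filter]
    refine ⟨hD1, hD2, ?_⟩
    by_contra hcon
    rw [not_lt] at hcon
    have hB : (12800 : ℝ) ^ (kT a X) ≤ (X : ℝ) ^ η := by
      refine le_trans ?_ q3
      exact pow_le_pow_right₀ (by norm_num) (by unfold kT; omega)
    have := not_bad3 hNUM hN3 P σ a η C ha1 hC hLone X D hD2 hDa hDb hX1 q1 hB r2 r1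
      r4 (by
        have h2C : 2 * C ≤ (X : ℝ) ^ (η / 2) := (le_max_left _ _).trans hk1
        calc C * (2 + Real.log X) ≤ C * (2 * (1 + Real.log X)) := by gcongr; linarith
          _ = (2 * C) * (1 + Real.log X) := by ring
          _ ≤ (X : ℝ) ^ (η / 2) * (X : ℝ) ^ (η / 2) := by gcongr
          _ = (X : ℝ) ^ η := by rw [← Real.rpow_add hX0]; congr 1; ring) (by
        have h4 : (4 : ℝ) ≤ (X : ℝ) ^ (η / 2) := (le_max_right _ _).trans hk1
        have h5 : (X : ℝ) ^ (η / 2) ≤ (X : ℝ) ^ η :=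
          Real.rpow_le_rpow_of_exponent_le hXr (by linarith)
        linarith) hcon
    apply this
    have e1 : (1 - σ) / 2 + 1 / (2 * a) + 4 * η = (1 - σ) / 2 + 1 / (2 * a) + ε := by rw [hη]; ring
    rw [e1]
    exact hD3
  have hcard : (((Finset.Ioc X (2 * X)).filter (fun D => IsFund D ∧
      BadT P a ((1 - σ) / 2 + 1 / (2 * a) + ε) X D)).card : ℝ) ≤ (((Finset.Ioc X (2 * X)).filter
      (fun D => IsFund D ∧ ∑ p ∈ QQ P (yS a X), (1 + ((jacobiSym (D : ℤ) p : ℤ) : ℝ)) <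
        ((QQ P (yS a X)).card : ℝ) / 20)).card : ℝ) := by
    exact_mod_cast Finset.card_le_card hsub
  exact hcard.trans (hlow.trans s3)

/-- **Part B.** -/
theorem t_B (hNUM : E_NUM) (hLOW : E_LOW) (hPAR : E_PAR) (hPAR2 : E_PAR2) : E_B := by
  intro P σ hσ0 hσ1 hP a ha ε hε
  have h_P_N0 : P_N0 := T_N0
  have h_P_N0d : P_N0d := T_N0d
  have h_P_SPL : P_SPL := T_SPL h_P_N0
  have h_P_N2 : P_N2 := T_N2 h_P_SPL
  have h_P_KR : P_KR := T_KR
  have h_P_PV : P_PV := T_PV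
  have h_P_N3a : P_N3a := T_N3a h_P_KR h_P_PV
  have h_P_N3b : P_N3b := T_N3b h_P_KR h_P_PV h_P_N3a
  have h_P_N3 : P_N3 := T_N3 h_P_N2 h_P_N3b
  obtain ⟨X0, hX0⟩ := count_bad3 hNUM hLOW hPAR hPAR2 h_P_N3 h_P_N3a P σ hσ0 hσ1 hP a ha (ε / 2)
    (by positivity)
  have ha1 : 1 < a := by
    by_contra hcon
    rw [not_lt] at hcon
    nlinarith
  have ha0 : 0 < a := by linarith
  set θ : ℝ := (1 - σ) / 2 + 1 / (2 * a) with hθ
  have hθ0 : 0 ≤ θ := by
    have h1 : 0 ≤ (1 - σ) / 2 := by linarith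
    positivity
  set κ : ℝ := 2 * (1 - σ) + 2 / a + ε / 2 with hκ
  have hκ0 : 0 < κ := by
    have h1 : 0 ≤ 2 * (1 - σ) := by linarith
    positivity
  obtain ⟨X1, hX1⟩ := Filter.eventually_atTop.1
    (hPAR P σ hσ0 hσ1 hP a (3 / 2) ha (by norm_num) (by norm_num) 1 1 one_pos le_rfl)
  obtain ⟨X2, hX2⟩ := Filter.eventually_atTop.1
    (ERRh.ev_const (ε / 2) (by positivity) ((4 : ℝ) ^ (θ + ε / 2)))
  -- a bad radicand gives a bad discriminant
  have key : ∀ Y : ℕ, X2 ≤ Y → 1 ≤ Y → ∀ d : ℕ, Y < d → d ≤ 2 * Y →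
      Squarefree d → ¬ GoodT P a (θ + ε) d → ∀ X : ℕ, X1 ≤ X → X ≤ 4 * d → d ≤ 2 * X →
      IsFund (Dof d) ∧ BadT P a (θ + ε / 2) X (Dof d) := by
    intro Y hY2 hY1 d hd1 hd2 hsq hbad X hXX1 hX4 hdX
    have hd : 1 < d := by omega
    refine ⟨Pool.Agent.R345.IX.isFund_Dof hd hsq, ?_⟩
    unfold GoodT at hbad
    push Not at hbad
    obtain ⟨K, i1, i2, h2, hx, hlt⟩ := hbad
    refine ⟨K, i1, i2, h2, ?_, ?_⟩
    · rw [h_P_N0d K d hd hsq h2 hx]
      unfold Dof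
      split_ifs <;> push_cast <;> rfl
    · intro hle
      refine absurd hle (not_le.2 (lt_of_le_of_lt ?_ hlt))
      have hdr : (0 : ℝ) < d := by
        have : 0 < d := by omega
        exact_mod_cast this
      obtain ⟨-, -, -, -, -, -, -, -, -, hfin⟩ := hX1 X hXX1
      obtain ⟨g1, g2⟩ := hfin d (by
        have : (X : ℝ) ≤ 4 * d := by exact_mod_cast hX4
        linarith) (by exact_mod_cast hdX)
      have g3 : ((kT a X : ℕ) : ℝ) ≤ Real.log d / Real.log (Real.log d) := by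
        have h5 := kS_third a X
        have h5' : 3 * kT a X ≤ kS a (3 / 2) X := by
          unfold kT
          omega
        have h6 : (3 : ℝ) * ((kT a X : ℕ) : ℝ) ≤ kS a (3 / 2) X := by exact_mod_cast h5'
        have h7 : (0 : ℝ) ≤ kS a (3 / 2) X := Nat.cast_nonneg _
        linarith
      have hsub : Pool.Agent.N71.SP.Reach P K ((2 * yS a X : ℕ) : ℝ) (kT a X) ⊆
          Pool.Agent.N71.SP.Reach P K ((Real.log d) ^ a)
            (Real.log d / Real.log (Real.log d)) :=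
        reach_monoS (by push_cast; exact g1) g3
      have hcard : ((Pool.Agent.N71.SP.Reach P K ((2 * yS a X : ℕ) : ℝ) (kT a X)).ncard : ℝ) ≤
          ((Pool.Agent.N71.SP.Reach P K ((Real.log d) ^ a)
            (Real.log d / Real.log (Real.log d))).ncard : ℝ) := by
        exact_mod_cast Set.ncard_le_ncard hsub (Set.toFinite _)
      have hpow : (X : ℝ) ^ (θ + ε / 2) ≤ (d : ℝ) ^ (θ + ε) := by
        have h4d : (4 : ℝ) ^ (θ + ε / 2) ≤ (d : ℝ) ^ (ε / 2) := hX2 d (by omega)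
        calc (X : ℝ) ^ (θ + ε / 2) ≤ (4 * (d : ℝ)) ^ (θ + ε / 2) := by
              apply Real.rpow_le_rpow (Nat.cast_nonneg _) _ (by positivity)
              exact_mod_cast hX4
          _ = (4 : ℝ) ^ (θ + ε / 2) * (d : ℝ) ^ (θ + ε / 2) :=
              Real.mul_rpow (by norm_num) hdr.le
          _ ≤ (d : ℝ) ^ (ε / 2) * (d : ℝ) ^ (θ + ε / 2) := by gcongr
          _ = (d : ℝ) ^ (θ + ε) := by
              rw [← Real.rpow_add hdr]
              congr 1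
              ring
      exact mul_le_mul hpow hcard (Nat.cast_nonneg _) (by positivity)
  have hdy := Pool.Agent.R345.IY.dyadic2
    (fun S => (S.filter (fun d => Squarefree d ∧ ¬ GoodT P a (θ + ε) d)).card)
    (fun d => Squarefree d ∧ ¬ GoodT P a (θ + ε) d) (fun S => by congr) κ (1 + 4 ^ κ) hκ0
    (by positivity) (max (max X0 X1) (max X2 1)) (by
      intro Y hY
      have hY0 : X0 ≤ Y := le_trans (le_trans (le_max_left _ _) (le_max_left _ _)) hY
      have hY1 : X1 ≤ Y := le_trans (le_trans (le_max_right _ _) (le_max_left _ _)) hY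
      have hY2 : X2 ≤ Y := le_trans (le_trans (le_max_left _ _) (le_max_right _ _)) hY
      have hY3 : 1 ≤ Y := le_trans (le_trans (le_max_right _ _) (le_max_right _ _)) hY
      have hYr : (0 : ℝ) < Y := by exact_mod_cast hY3
      set S := (Finset.Ioc Y (2 * Y)).filter (fun d => Squarefree d ∧ ¬ GoodT P a (θ + ε) d) with hS
      set A := (Finset.Ioc Y (2 * Y)).filter (fun D => IsFund D ∧ BadT P a (θ + ε / 2) Y D) with hA
      set B := (Finset.Ioc (4 * Y) (2 * (4 * Y))).filter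
        (fun D => IsFund D ∧ BadT P a (θ + ε / 2) (4 * Y) D) with hB
      have hA' := hX0 Y hY0
      have hB' := hX0 (4 * Y) (by omega)
      have hinj : S.card ≤ (A ∪ B).card := by
        refine Finset.card_le_card_of_injOn Dof ?_ ?_
        · intro d hd
          rw [Finset.mem_coe] at hd ⊢
          obtain ⟨h1, h2, h3⟩ := Finset.mem_filter.1 hd
          obtain ⟨h4, h5⟩ := Finset.mem_Ioc.1 h1
          rw [Finset.mem_union]
          by_cases h : d % 4 = 1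
          · left
            have hDof : Dof d = d := by unfold Dof; rw [if_pos h]
            have hk := key Y hY2 hY3 d h4 h5 h2 h3 Y hY1 (by omega) (by omega)
            rw [hA, Finset.mem_filter, Finset.mem_Ioc]
            exact ⟨by rw [hDof]; exact ⟨h4, h5⟩, hk⟩
          · right
            have hDof : Dof d = 4 * d := by unfold Dof; rw [if_neg h]
            have hk := key Y hY2 hY3 d h4 h5 h2 h3 (4 * Y) (by omega) (by omega)
              (by omega)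
            rw [hB, Finset.mem_filter, Finset.mem_Ioc]
            exact ⟨by rw [hDof]; omega, hk⟩
        · intro d _ d' _ hdd
          unfold Dof at hdd
          split_ifs at hdd <;> omega
      have h1 : (S.card : ℝ) ≤ A.card + B.card := by
        exact_mod_cast hinj.trans (Finset.card_union_le _ _)
      have h4Y : (((4 * Y : ℕ) : ℝ)) ^ κ = 4 ^ κ * (Y : ℝ) ^ κ := by
        push_cast
        rw [Real.mul_rpow (by norm_num) hYr.le]
      show ((S.card : ℕ) : ℝ) ≤ (1 + 4 ^ κ) * (Y : ℝ) ^ κ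
      rw [h4Y] at hB'
      linarith)
  obtain ⟨C, hC, hfin⟩ := hdy
  refine ⟨C, hC, fun X => ?_⟩
  rcases Nat.eq_zero_or_pos X with h0 | h0
  · subst h0
    have h1 := hfin 0
    have h2 : ((0 : ℕ) : ℝ) ^ κ = 0 := by
      rw [Nat.cast_zero]
      exact Real.zero_rpow hκ0.ne'
    rw [h2, mul_zero] at h1
    refine h1.trans ?_
    positivity
  · refine (hfin X).trans ?_
    have hXr : (1 : ℝ) ≤ X := by exact_mod_cast h0
    have : (X : ℝ) ^ κ ≤ (X : ℝ) ^ (2 * (1 - σ) + 2 / a + ε) :=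
      Real.rpow_le_rpow_of_exponent_le hXr (by linarith)
    gcongr

end Pool.Agent.N556.SP
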